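import Pool.Agent.helper83.OD.Spec

set_option autoImplicit false

namespace Pool.Agent.OD

/-- `m^2 + 6 k^2 = 7` has only the solutions `±1, ±1`. -/
theorem S7_small (m k : ℤ) (h : m ^ 2 + 6 * k ^ 2 = 7) : (m = 1 ∨ m = -1) ∧ (k = 1 ∨ k = -1) := by
  have hk1 : k ≤ 1 := by nlinarith [sq_nonneg m]
  have hk2 : -1 ≤ k := by nlinarith [sq_nonneg m]
  have hm1 : m ≤ 2 := by nlinarith [sq_nonneg k]
  have hm2 : -2 ≤ m := by nlinarith [sq_nonneg k]
  interval_cases k <;> interval_cases m <;> simp_all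

theorem S7 : S7_stmt := by
  intro p s t hp hp3 hs ht hpst c z hc hz h
  have hpI : Prime (p : ℤ) := Nat.prime_iff_prime_int.1 hp
  have hp0 : (p : ℤ) ≠ 0 := hpI.ne_zero
  have hppos : (0 : ℤ) < p := by exact_mod_cast hp.pos
  have hsI : (0 : ℤ) < s := by exact_mod_cast hs
  have htI : (0 : ℤ) < t := by exact_mod_cast ht
  have hpq : (p : ℤ) = 3 * (s : ℤ) ^ 2 + 2 * (t : ℤ) ^ 2 := by exact_mod_cast hpst
  set S : ℤ := (s : ℤ) with hS
  set T : ℤ := (t : ℤ) with hT
  set P : ℤ := (p : ℤ) with hP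
  have hdvd3 : P ∣ 3 * ((S * z - T * c) * (S * z + T * c)) := by
    refine ⟨z ^ 2 - 7 * T ^ 2, ?_⟩
    linear_combination (-(z ^ 2)) * hpq - T ^ 2 * h
  have h3 : ¬ P ∣ 3 := by
    intro hd
    have := Int.le_of_dvd (by norm_num) hd
    have h4 : (3 : ℤ) < P := by rw [hP]; exact_mod_cast hp3
    linarith
  have hdvd : P ∣ (S * z - T * c) * (S * z + T * c) := (hpI.dvd_or_dvd hdvd3).resolve_left h3
  have hid1 : (3 * S * c + 2 * T * z) ^ 2 + 6 * (S * z - T * c) ^ 2 = 7 * P ^ 2 := by
    have : (3 * S * c + 2 * T * z) ^ 2 + 6 * (S * z - T * c) ^ 2 = (3 * S ^ 2 + 2 * T ^ 2) * (3 * c ^ 2 + 2 * z ^ 2) := by ring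
    rw [this, ← hpq, h]; ring
  have hid2 : (3 * S * c - 2 * T * z) ^ 2 + 6 * (S * z + T * c) ^ 2 = 7 * P ^ 2 := by
    have : (3 * S * c - 2 * T * z) ^ 2 + 6 * (S * z + T * c) ^ 2 = (3 * S ^ 2 + 2 * T ^ 2) * (3 * c ^ 2 + 2 * z ^ 2) := by ring
    rw [this, ← hpq, h]; ring
  rcases hpI.dvd_or_dvd hdvd with ⟨k, hk⟩ | ⟨k, hk⟩
  · have hd : P ∣ (3 * S * c + 2 * T * z) ^ 2 := by
      refine ⟨7 * P - 6 * P * k ^ 2, ?_⟩
      rw [hk] at hid1
      linear_combination hid1
    obtain ⟨m, hm⟩ := hpI.dvd_of_dvd_pow hd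
    have hmk : m ^ 2 + 6 * k ^ 2 = 7 := by
      rw [hk, hm] at hid1
      have : P ^ 2 * (m ^ 2 + 6 * k ^ 2) = P ^ 2 * 7 := by linear_combination hid1
      exact mul_left_cancel₀ (pow_ne_zero 2 hp0) this
    obtain ⟨hm1, hk1⟩ := S7_small m k hmk
    have hmpos : 0 < m := by
      have h5 : 0 < P * m := by
        rw [← hm]; positivity
      exact (mul_pos_iff_of_pos_left hppos).1 h5
    have hm2 : m = 1 := by
      rcases hm1 with h6 | h6
      · exact h6
      · rw [h6] at hmpos; norm_num at hmpos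
    subst hm2
    have hc1 : c = S - 2 * k * T := by
      have : P * c = P * (S - 2 * k * T) := by
        linear_combination c * hpq + S * hm - 2 * T * hk
      exact mul_left_cancel₀ hp0 this
    have hz1 : z = T + 3 * k * S := by
      have : P * z = P * (T + 3 * k * S) := by
        linear_combination z * hpq + T * hm + 3 * S * hk
      exact mul_left_cancel₀ hp0 this
    rcases hk1 with h7 | h7
    · subst h7
      left
      have hc2 : c = S - 2 * T := by rw [hc1]; ring
      refine ⟨?_, by rw [hz1]; ring⟩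
      rw [← hc2, abs_of_pos hc]
    · subst h7
      right
      have hz2 : z = T - 3 * S := by rw [hz1]; ring
      refine ⟨by rw [hc1]; ring, ?_⟩
      rw [abs_sub_comm, ← hz2, abs_of_pos hz]
  · have hd : P ∣ (3 * S * c - 2 * T * z) ^ 2 := by
      refine ⟨7 * P - 6 * P * k ^ 2, ?_⟩
      rw [hk] at hid2
      linear_combination hid2
    obtain ⟨m, hm⟩ := hpI.dvd_of_dvd_pow hd
    have hmk : m ^ 2 + 6 * k ^ 2 = 7 := by
      rw [hk, hm] at hid2
      have : P ^ 2 * (m ^ 2 + 6 * k ^ 2) = P ^ 2 * 7 := by linear_combination hid2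
      exact mul_left_cancel₀ (pow_ne_zero 2 hp0) this
    obtain ⟨hm1, hk1⟩ := S7_small m k hmk
    have hkpos : 0 < k := by
      have h5 : 0 < P * k := by
        rw [← hk]; positivity
      exact (mul_pos_iff_of_pos_left hppos).1 h5
    have hk2 : k = 1 := by
      rcases hk1 with h6 | h6
      · exact h6
      · rw [h6] at hkpos; norm_num at hkpos
    subst hk2
    have hc1 : c = m * S + 2 * T := by
      have : P * c = P * (m * S + 2 * T) := by
        linear_combination c * hpq + S * hm + 2 * T * hk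
      exact mul_left_cancel₀ hp0 this
    have hz1 : z = 3 * S - m * T := by
      have : P * z = P * (3 * S - m * T) := by
        linear_combination z * hpq - T * hm + 3 * S * hk
      exact mul_left_cancel₀ hp0 this
    rcases hm1 with h7 | h7
    · subst h7
      right
      have hz2 : z = 3 * S - T := by rw [hz1]; ring
      refine ⟨by rw [hc1]; ring, ?_⟩
      rw [← hz2, abs_of_pos hz]
    · subst h7
      left
      have hc2 : c = 2 * T - S := by rw [hc1]; ring
      refine ⟨?_, by rw [hz1]; ring⟩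
      rw [abs_sub_comm, ← hc2, abs_of_pos hc]

end Pool.Agent.OD
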